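import Pool.Agent.U467.CN.Stm

/-!
Project CN, package ANA: the existence of a length-preserving monotone map between two trees that
depend measurably on a point of a Polish space is an analytic condition.
-/

set_option autoImplicit false

open Set Topology Filter MeasureTheory

namespace Pool.Agent.U810.CN.ANA

open Pool.Agent.U467.CN

lemma meas_In {X : Type} [MeasurableSpace X] (T : X → List ℕ → Prop)
    (hT : ∀ s, MeasurableSet {x | T x s}) (l : List ℕ) : MeasurableSet {x | In (T x) l} := by
  have e : {x | In (T x) l} = ⋂ t : List ℕ, {x | t <:+ l → T x t} := by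
    ext x
    simp only [In, mem_ofPred_eq, mem_iInter]
  rw [e]
  refine MeasurableSet.iInter fun t => ?_
  by_cases h : t <:+ l
  · simpa [h] using hT t
  · simp [h]

lemma meas_ext (s : List ℕ) : ∀ t : List ℕ, MeasurableSet {ψ : List ℕ → ℕ | ext ψ s = t} := by
  induction s with
  | nil =>
    intro t
    by_cases h : ([] : List ℕ) = t
    · simp [Pool.Agent.U467.CN.ext, h]
    · simp [Pool.Agent.U467.CN.ext, h]
  | cons n s ih =>
    intro t
    cases t with
    | nil => simp [Pool.Agent.U467.CN.ext]
    | cons a t =>
      have e : {ψ : List ℕ → ℕ | ext ψ (n :: s) = a :: t} =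
          {ψ | ψ (n :: s) = a} ∩ {ψ | ext ψ s = t} := by
        ext ψ
        simp [Pool.Agent.U467.CN.ext]
      rw [e]
      exact (measurable_pi_apply (n :: s) (measurableSet_singleton a)).inter (ih t)

theorem t_ANA : S_ANA := by
  intro X _ _ _ _ T T' hT hT' r r'
  have hmeas : MeasurableSet {p : X × (List ℕ → ℕ) |
      ∀ s, In (T p.1) (s ++ r) → In (T' p.1) (ext p.2 s ++ r')} := by
    have e : {p : X × (List ℕ → ℕ) | ∀ s, In (T p.1) (s ++ r) → In (T' p.1) (ext p.2 s ++ r')} =
        ⋂ s : List ℕ, ((Prod.fst ⁻¹' {x | In (T x) (s ++ r)})ᶜ ∪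
          ⋃ t : List ℕ, (Prod.snd ⁻¹' {ψ | ext ψ s = t}) ∩
            (Prod.fst ⁻¹' {x | In (T' x) (t ++ r')})) := by
      ext ⟨x, ψ⟩
      simp only [mem_ofPred_eq, mem_iInter, mem_union, mem_compl_iff, mem_preimage, mem_iUnion,
        mem_inter_iff]
      refine forall_congr' fun s => ?_
      constructor
      · intro h
        by_cases h1 : In (T x) (s ++ r)
        · exact Or.inr ⟨_, rfl, h h1⟩
        · exact Or.inl h1
      · rintro (h | ⟨t, rfl, h⟩) h1
        · exact absurd h1 h
        · exact h
    rw [e]
    refine MeasurableSet.iInter fun s => MeasurableSet.union ?_ ?_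
    · exact (measurable_fst (meas_In T hT _)).compl
    · refine MeasurableSet.iUnion fun t => ?_
      exact (measurable_snd (meas_ext s t)).inter (measurable_fst (meas_In T' hT' _))
  have h2 := hmeas.analyticSet.image_of_continuous continuous_fst
  convert h2 using 1
  ext x
  simp only [mem_ofPred_eq, mem_image, Prod.exists, exists_and_right, exists_eq_right]
  rfl

end Pool.Agent.U810.CN.ANA
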